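import Mathlib
import Pool.Agent.Helper60.UnitCoeffRing

namespace Pool.Agent.Results.MP_f7573e_al.NoUnitCoefficient

open Pool.Agent.Helper60.UnitCoeff

/-- The free associative ring without unit on the noncommuting variables `x_0, x_1, x_2, …`:
integer combinations of nonempty words. -/
abbrev FreeRng := MonoidAlgebra ℤ (FreeSemigroup ℕ)

/-- The value `f(r_0, r_1, …)` of a polynomial at a sequence of ring elements: each word is
replaced by the corresponding product. -/
noncomputable def eval {R : Type*} [NonUnitalRing R] (r : ℕ → R) (f : FreeRng) : R :=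
  f.coeff.sum fun w n => n • FreeSemigroup.lift r w

/-- `R` satisfies the identity `f`. -/
def Satisfies (R : Type*) [NonUnitalRing R] (f : FreeRng) : Prop :=
  ∀ r : ℕ → R, eval r f = 0

/-- The total degree: the maximal length of a word occurring with nonzero coefficient. -/
def degree (f : FreeRng) : ℕ := f.coeff.support.sup FreeSemigroup.length

/-- The greatest common divisor of the coefficients. -/
def content (f : FreeRng) : ℤ := f.coeff.support.gcd f.coeff

/-- The multilinear polynomial `∑ α_σ x_{σ(0)} x_{σ(1)} ⋯ x_{σ(n)}` of degree `n + 1`. -/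
noncomputable def multilinear (n : ℕ) (α : Equiv.Perm (Fin (n + 1)) → ℤ) : FreeRng :=
  ∑ σ : Equiv.Perm (Fin (n + 1)),
    MonoidAlgebra.single
      (⟨(σ 0 : ℕ), List.ofFn fun i : Fin n => (σ i.succ : ℕ)⟩ : FreeSemigroup ℕ) (α σ)

/-- evaluation as a homomorphism -/
noncomputable def evalHom {R : Type*} [NonUnitalRing R] (r : ℕ → R) : FreeRng →ₙₐ[ℤ] R :=
  MonoidAlgebra.liftMagma ℤ (FreeSemigroup.lift r)

theorem evalHom_eq {R : Type*} [NonUnitalRing R] (r : ℕ → R) (f : FreeRng) :
    evalHom r f = eval r f := by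
  simp only [evalHom, eval, MonoidAlgebra.liftMagma]
  rfl

/-- the variable `x_i` -/
noncomputable def X (i : ℕ) : FreeRng := MonoidAlgebra.single (FreeSemigroup.of i) 1

theorem evalHom_X {R : Type*} [NonUnitalRing R] (r : ℕ → R) (i : ℕ) :
    evalHom r (X i) = r i := by
  rw [evalHom_eq, eval, X, MonoidAlgebra.coeff_single, Finsupp.sum_single_index]
  · simp
  · simp

/-- the identity, as an element of the free ring -/
noncomputable def idn : FreeRng := FF (X 0) (X 1) (X 2) (X 3)

theorem satisfies_idn : Satisfies RR idn := by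
  intro r
  rw [← evalHom_eq, idn, map_FF]
  exact RR_FF _ _ _ _




theorem idn_coeff_zero (w : FreeSemigroup ℕ) (hw : 5 < w.length) : idn.coeff w = 0 := by
  have key : ∀ (a : ℕ) (l : List ℕ), l.length ≤ 4 →
      ((FreeSemigroup.mk a l = w) = False) := by
    intro a l hl
    apply eq_false
    rintro rfl
    simp only [FreeSemigroup.length] at hw
    omega
  simp only [idn, FF, GG, G1, LL, mul_add, add_mul, mul_sub, sub_mul, X,
    MonoidAlgebra.single_mul_single, FreeSemigroup.of, FreeSemigroup.mk_mul_mk, mul_one,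
    List.nil_append, List.cons_append, MonoidAlgebra.coeff_add, MonoidAlgebra.coeff_sub,
    MonoidAlgebra.coeff_single, Finsupp.add_apply, Finsupp.sub_apply, Finsupp.single_apply]
  simp (discharger := decide) only [key, if_false, sub_zero, add_zero]

theorem idn_coeff_four : idn.coeff ⟨0, [1, 3, 2]⟩ = 1 := by
  simp only [idn, FF, GG, G1, LL, mul_add, add_mul, mul_sub, sub_mul, X,
    MonoidAlgebra.single_mul_single, FreeSemigroup.of, FreeSemigroup.mk_mul_mk, mul_one,
    List.nil_append, List.cons_append, MonoidAlgebra.coeff_add, MonoidAlgebra.coeff_sub,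
    MonoidAlgebra.coeff_single, Finsupp.add_apply, Finsupp.sub_apply, Finsupp.single_apply]
  simp

theorem idn_coeff_five : idn.coeff ⟨0, [0, 1, 3, 2]⟩ = 2 := by
  simp only [idn, FF, GG, G1, LL, mul_add, add_mul, mul_sub, sub_mul, X,
    MonoidAlgebra.single_mul_single, FreeSemigroup.of, FreeSemigroup.mk_mul_mk, mul_one,
    List.nil_append, List.cons_append, MonoidAlgebra.coeff_add, MonoidAlgebra.coeff_sub,
    MonoidAlgebra.coeff_single, Finsupp.add_apply, Finsupp.sub_apply, Finsupp.single_apply]
  simp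

theorem idn_degree : degree idn = 5 := by
  apply le_antisymm
  · apply Finset.sup_le
    intro w hw
    by_contra h
    exact (Finsupp.mem_support_iff.mp hw) (idn_coeff_zero w (by omega))
  · have : (⟨0, [0, 1, 3, 2]⟩ : FreeSemigroup ℕ) ∈ idn.coeff.support := by
      rw [Finsupp.mem_support_iff, idn_coeff_five]; decide
    exact Finset.le_sup (f := FreeSemigroup.length) this

theorem idn_content : content idn = 1 := by
  have h : (⟨0, [1, 3, 2]⟩ : FreeSemigroup ℕ) ∈ idn.coeff.support := by
    rw [Finsupp.mem_support_iff, idn_coeff_four]; decide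
  have h2 : content idn ∣ idn.coeff ⟨0, [1, 3, 2]⟩ := Finset.gcd_dvd h
  rw [idn_coeff_four] at h2
  have h3 : normalize (content idn) = content idn := Finset.normalize_gcd
  rw [← h3]
  exact normalize_eq_one.mpr (isUnit_of_dvd_one h2)

/-- the five generators of the ring -/
noncomputable def gen (i : Fin 5) : RR :=
  ⟨m (FreeMonoid.of i), AddSubgroup.subset_closure ⟨FreeMonoid.of i, FreeMonoid.of_ne_one i, rfl⟩⟩


theorem foldl_gen (r : ℕ → RR) (l : List ℕ) (l' : List (Fin 5)) (hl : l.map r = l'.map gen)
    (acc : RR) : ((l.foldl (fun a b => a * r b) acc : RR) : BB) =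
      (acc : BB) * m (FreeMonoid.ofList l') := by
  induction l generalizing l' acc with
  | nil =>
    have : l' = [] := by
      simpa using hl.symm
    subst this
    have h1 : m (FreeMonoid.ofList []) = 1 := by
      simp only [m, wd, FreeMonoid.ofList_nil, map_one]
    rw [h1, mul_one]
    rfl
  | cons a l ih =>
    cases l' with
    | nil => simp at hl
    | cons b l' =>
      simp only [List.map_cons, List.cons.injEq] at hl
      rw [List.foldl_cons, ih l' hl.2, hl.1, FreeMonoid.ofList_cons, ← m_mul, ← mul_assoc]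
      rfl

theorem lift_gen (r : ℕ → RR) (a : ℕ) (l : List ℕ) (a' : Fin 5) (l' : List (Fin 5))
    (ha : r a = gen a') (hl : l.map r = l'.map gen) :
    ((FreeSemigroup.lift r ⟨a, l⟩ : RR) : BB) = m (FreeMonoid.ofList (a' :: l')) := by
  have h := foldl_gen r l l' hl (r a)
  rw [FreeMonoid.ofList_cons, ← m_mul]
  refine h.trans ?_
  rw [ha]
  rfl

theorem Lam_eq_zero_of_mk (z : A5) (h : mk z = 0) : Lam z = 0 := by
  have := (mk_eq_zero z).mp h 1 1
  simpa using this

theorem lam_perm (τ : Equiv.Perm (Fin 5)) :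
    lam (FreeMonoid.ofList (τ 0 :: List.ofFn fun i : Fin 4 => τ i.succ)) =
      if τ = 1 then 2 else 0 := by
  have e : (τ 0 :: List.ofFn fun i : Fin 4 => τ i.succ) = List.ofFn τ :=
    (List.ofFn_succ (f := τ)).symm
  have e1 : ([0, 1, 2, 3, 4] : List (Fin 5)) = List.ofFn (1 : Equiv.Perm (Fin 5)) := by decide
  have h6 : D 0 (List.ofFn τ) 0 = 0 := D_length _ (by simp)
  rw [lam, e, FreeMonoid.toList_ofList, h6, dl, e1]
  by_cases h : τ = 1
  · subst h; simp
  · have : ¬ (List.ofFn τ = List.ofFn (1 : Equiv.Perm (Fin 5))) := by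
      intro h'
      apply h
      exact DFunLike.coe_injective (List.ofFn_injective h')
    rw [if_neg this, if_neg h]
    simp

theorem even_coeff (α : Equiv.Perm (Fin 5) → ℤ) (h : Satisfies RR (multilinear 4 α))
    (σ : Equiv.Perm (Fin 5)) : Even (α σ) := by
  classical
  set r : ℕ → RR := fun j => if h : j < 5 then gen (σ⁻¹ ⟨j, h⟩) else 0 with hr
  have hr' : ∀ k : Fin 5, r (k : ℕ) = gen (σ⁻¹ k) := by
    intro k
    simp only [hr, k.2, dif_pos]
  have h0 := h r
  have e : ((eval r (multilinear 4 α) : RR) : BB) = mk (∑ π : Equiv.Perm (Fin 5),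
      α π • wd (FreeMonoid.ofList ((σ⁻¹ * π) 0 :: List.ofFn fun i : Fin 4 => (σ⁻¹ * π) i.succ)))
      := by
    rw [← evalHom_eq, multilinear, map_sum, map_sum]
    have hc : ∀ s : Finset (Equiv.Perm (Fin 5)), ∀ f : Equiv.Perm (Fin 5) → RR,
        ((∑ π ∈ s, f π : RR) : BB) = ∑ π ∈ s, (f π : BB) := by
      intro s f
      exact map_sum (NonUnitalSubringClass.subtype RR) f s
    rw [hc]
    refine Finset.sum_congr rfl fun π _ => ?_
    rw [evalHom_eq, eval, MonoidAlgebra.coeff_single, Finsupp.sum_single_index (by simp),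
      map_zsmul]
    have hl := lift_gen r (π 0 : ℕ) (List.ofFn fun i : Fin 4 => (π i.succ : ℕ)) ((σ⁻¹ * π) 0)
      (List.ofFn fun i : Fin 4 => (σ⁻¹ * π) i.succ) (hr' _) (by
        simp only [List.map_ofFn]
        congr 1
        funext i
        exact hr' _)
    have hz : ∀ (n : ℤ) (x : RR), ((n • x : RR) : BB) = n • (x : BB) := by
      intro n x
      exact map_zsmul (NonUnitalSubringClass.subtype RR) n x
    rw [hz, hl]
    rfl
  have h1 : mk (∑ π : Equiv.Perm (Fin 5),
      α π • wd (FreeMonoid.ofList ((σ⁻¹ * π) 0 :: List.ofFn fun i : Fin 4 => (σ⁻¹ * π) i.succ)))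
      = 0 := by
    rw [← e, h0]
    rfl
  have h2 := Lam_eq_zero_of_mk _ h1
  rw [map_sum, Finset.sum_eq_single σ] at h2
  · rw [map_zsmul, Lam_wd, inv_mul_cancel, lam_perm, if_pos rfl, zsmul_eq_mul] at h2
    have h3 : ((α σ * 2 : ℤ) : ZMod 4) = 0 := by push_cast; exact h2
    rw [ZMod.intCast_zmod_eq_zero_iff_dvd] at h3
    rw [Int.even_iff]
    omega
  · intro π _ hπ
    rw [map_zsmul, Lam_wd, lam_perm, if_neg, smul_zero]
    intro h'
    apply hπ
    exact (inv_mul_eq_one.mp h').symm
  · intro h'
    exact absurd (Finset.mem_univ _) h'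

/-- There is a ring (without unit) that satisfies an identity of degree `5` with coprime
coefficients, while all coefficients of every multilinear identity of degree `5` it satisfies
are even; in particular none of them equals `1`. -/
theorem result : ∃ (R : Type) (_ : NonUnitalRing R),
    (∃ f : FreeRng, degree f = 5 ∧ content f = 1 ∧ Satisfies R f) ∧
      ∀ α : Equiv.Perm (Fin 5) → ℤ, Satisfies R (multilinear 4 α) → ∀ σ, Even (α σ) :=
  ⟨RR, inferInstance, ⟨idn, idn_degree, idn_content, satisfies_idn⟩, even_coeff⟩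

end Pool.Agent.Results.MP_f7573e_al.NoUnitCoefficient
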